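import Mathlib
import Pool.Agent.H692.ET.Final
import Pool.Graph.R_pool_sql_team_seeded_63374d34.N575.PCT.Main

/-!
# Exact Triangle with real weights: decision trees with few rounds

The graph is complete tripartite with `n` vertices in each part, the weights are real numbers. How
many tests are necessary to decide whether there is a triangle of weight zero, if the tests are made
in few rounds? (The tests of one round are made simultaneously, so they may depend on the outcomes of
the earlier rounds only.)

The definitions are in `Pool/Agent/H692/FR/Model.lean`, and those of the first four items in the
modules `N575.LDT.Model` and `N575.PCT.Model` of the library: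

* `Wts n`: the weights of the edges, `wt w s`: the weight of the triangle `s` (a triple of vertices,
  one from each part);
* `pot x`: the weights given by a potential `x` on the vertices (differences, in cyclic order), for
  which all triangles have the weight zero;
* `Shallow f`: the function `f` of the weights (with values in the integers) is locally constant near
  `pot x` for a dense set of potentials `x`;
* `Regular f`: the real function `f` of the weights is, for generic (a comeagre set of) potentials
  `x`, differentiable at `pot x`, with a value or a derivative which is not zero;
* `RTree n β`: decision trees with outputs in `β`; a node asks for the value of a shallow function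
  (`free`), or it is a `round`, which asks at the same time for the signs (negative, zero, positive)
  of the weights of any number of triangles (comparisons) and for the signs of any number of regular
  functions (tests). The trees may be infinite, but all branches are finite;
* `run`, `rounds`, `comparisons`, `tests`: the output and the numbers of the rounds, of the
  comparisons (of all rounds together) and of the tests (of all rounds together) on the path of the
  computation. Nodes `free` are not counted, and there may be any number of them.

All analytic functions which are not zero of the second order for all potentials are regular (part
2), for example all nonzero linear forms and the products of two linear forms, one of which does not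
vanish for all potentials. Free are for example the sign of every analytic function which is not zero
for all potentials and the integer part of every analytic function which is not an integer for all
potentials: all binary digits of the weights, all comparisons of weights and of sums of weights which
do not vanish for all potentials.

Result: with `r` rounds at least `n ^ (2 + 2 / (r + 1)) / (12 * 16 ^ r)` tests are necessary, even
if all weights are small, no triangle has a negative weight and at most one has the weight zero. For
`r = 1` these are `n ^ 3`, for `r = 2` they are `n ^ (8 / 3)`. Without a bound for the number of
rounds `O (n ^ 2 (log n) ^ 2)` linear tests suffice (Kane, Lovett and Moran). More precisely, a saving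
of tests of triangles needs many other tests: for every `x`, at least `n ^ 3 / (16 (4 x) ^ (r - 1))`
comparisons and tests, or at least `x ^ 2 n ^ 2 / (12 * 16 ^ r)` tests are made.

Proof. Near a generic potential all shallow functions are constant, and the regular functions have a
constant sign or the sign of their derivative in the direction `u` of the deviation. So there remain
linear tests for `u`. The adversary keeps a direction `u` for which all triangles have weights `≥ 0`,
such that no form which was tested vanishes, except the weights of triangles, and a large set of
triangles of weight `0` which were not tested. In each round `u` is moved by a small multiple of the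
weights for which the triangle `(i, j, k)` has the weight `(a i + b k - c j) ^ 2`, where `a`, `b`, `c`
are random labels from about `x` possible ones. The part `1 / (2 x)` of the triangles remains tight. A
form which is not a multiple of the weight of a single triangle can be made nonzero by a change which
does not concern the tight triangles (a different potential for each class of the labels), except
with probability `1 / x ^ 2`; in this exceptional case the weight of one edge in its support is
increased, and only few tight triangles are lost. After the last round one of the remaining triangles
was never tested; with the others positive its weight may be zero or positive.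
-/

set_option autoImplicit false

namespace Pool.Agent.Results.MP_62fbe0_lc.FewRounds

open Pool.Agent.N575.LDT (Wts Tri wt pot)
open Pool.Agent.N575.PCT (Regular regular_analytic)
open Pool.Agent.H692.FR (RTree)

/-- Decision trees with at most `r` rounds, for real weights smaller than `δ`.
1. Let a tree reject if the weights of all triangles are positive, and accept if exactly one triangle
has the weight zero and all others have positive weights; and let it make at most `r` rounds, at most
`T` comparisons and tests, and at most `q` tests, if the weights of all triangles are positive.
2. An analytic function is regular if for some potential its value or its derivative is not zero. -/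
theorem result :
    (∀ n r T q : ℕ, 1 ≤ n → 1 ≤ r → ∀ δ : ℝ, 0 < δ → ∀ t : RTree n Bool,
      (∀ w : Wts n, (∀ e, |w e| < δ) → (∀ s, 0 < wt w s) → t.run w = false) →
      (∀ w : Wts n, (∀ e, |w e| < δ) → (∃ τ, wt w τ = 0 ∧ ∀ s, s ≠ τ → 0 < wt w s) →
        t.run w = true) →
      (∀ w : Wts n, (∀ e, |w e| < δ) → (∀ s, 0 < wt w s) → t.rounds w ≤ r ∧
        t.comparisons w + t.tests w ≤ T ∧ t.tests w ≤ q) →
      (n : ℝ) ^ (2 + 2 / ((r : ℝ) + 1)) ≤ 12 * 16 ^ r * T ∧
      ∀ x : ℕ, 1 ≤ x → (n : ℝ) ^ 3 ≤ 16 * (4 * x) ^ (r - 1) * T ∨
        (x : ℝ) ^ 2 * n ^ 2 ≤ 12 * 16 ^ r * q) ∧
    (∀ (n : ℕ) (f : Wts n → ℝ), AnalyticOnNhd ℝ f Set.univ →
      (∃ x, f (pot x) ≠ 0 ∨ fderiv ℝ f (pot x) ≠ 0) → Regular f) := by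
  refine ⟨?_, fun n f hf h => regular_analytic hf h⟩
  intro n r T q hn hr δ hδ t h1 h2 h3
  refine ⟨Pool.Agent.H692.ET.headline not t hn hδ hr (fun w h4 h5 => ⟨by rw [h1 w h4 h5]; rfl,
    (h3 w h4 h5).1, (h3 w h4 h5).2.1⟩) (fun w h4 τ h5 h6 => by rw [h2 w h4 ⟨τ, h5, h6⟩]; rfl),
    fun x hx => Pool.Agent.H692.ET.tradeoff not t hn hδ hr hx (fun w h4 h5 =>
      ⟨by rw [h1 w h4 h5]; rfl, h3 w h4 h5⟩) (fun w h4 τ h5 h6 => by rw [h2 w h4 ⟨τ, h5, h6⟩]; rfl)⟩

end Pool.Agent.Results.MP_62fbe0_lc.FewRounds
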