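import Mathlib
import Pool.Agent.H692.FL.Exact2
import Pool.Agent.H692.FL.Asym

/-!
# Exact Triangle and linear decision trees with five terms

The model is the linear decision tree: the input is a symmetric matrix `w` of edge weights of the
complete graph with `n` vertices, a query computes an affine form `∑ q i j * w i j + r` and the tree
branches according to its sign (negative, zero, positive).  The tree depends on `n` (it is
non-uniform), everything but the queries is free.

In this model Exact Triangle has trees that are much faster than the conjectured `n^3`: Fredman's
method gives trees of depth `n^(5/2)` up to a logarithmic factor whose queries have four terms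
(Grønlund and Pettie; sort the differences `w i j - w i j'` in blocks), and the method of Kane,
Lovett and Moran gives trees of depth `n^2` up to logarithmic factors whose queries have six terms
with the coefficients `1` and `-1` (they compare the weights of two triangles).

We show that six terms are necessary for a bound like the last one: every randomised family of trees
whose queries have at most four terms with arbitrary real coefficients or at most five terms with
integer coefficients of absolute value at most `exp (c * √(log n))`, and which decides Exact
Triangle with error at most `1/3`, needs `n^2 * exp (c * √(log n))` queries in expectation on some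
matrix of weights without a triangle of weight zero, for a constant `c > 0`; the number of the
weights is only `n^2 / 2`.

Definitions: `Tree ι`, `Tree.run`, `Tree.cost` (file `Pool.Agent.H692.FL.Model`): linear decision
trees on the inputs `x : ι → ℝ`, the answer and the number of queries on an input; `Adm H q`: at most
four of the coefficients `q i` are not zero, or at most five, and then all coefficients are integers
of absolute value at most `H`; `Tree.FiveTerm H`: the coefficients of all queries are admissible in
this sense.  `ZeroTri w` (file `Pool.Agent.H692.FL.Exact`): some three different vertices form a
triangle of weight zero.

## Proof idea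

The proof starts with a sparse complex of triangles (cosets of small subgroups of a finite group of
unipotent matrices, restricted to a random set of the points) whose closed walks of length at most
five come from triangles.  So the linear forms with at most five terms in the weights of the edges
that vanish if all triangles have weight zero are the multiples of the weight of one triangle, the
combinations of the weights of two triangles with a common edge, and the multiples of
`V t - V t' + V t''` for chains `t`, `t'`, `t''` of such triangles; every edge is in many triangles
(`2 ^ s` on the average, `s` of the order `√(log n)`), but there are nearly no short closed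
galleries of triangles.  The graph of the complex has many more vertices than it is allowed to have
for its `n^2` edges.  So the vertices of many copies of the complex are mapped to `n` vertices at
random; most edges of the copies are not identified with other edges of copies (and those that are
identified are deleted), and this suffices, since the classification of the linear forms takes place
in the complex and not in the graph.  A query separates the hard input from at most three of the
inputs in which one of the `n^2 * 2 ^ s / O(1)` triangles of the complex that survive got weight
zero; these are obtained by spreading the correction of the weight over the galleries that start at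
the triangle, with one half of the weight at each step.
-/

namespace Pool.Agent.Results.MP_62fbe0_lc.FiveTermTrees

open Pool.Agent.H692.FL

open Classical in
/-- There are a constant `c > 0` and an `n₀` such that for all `n ≥ n₀`: every randomised linear
decision tree (a finite probability space of trees) on the weights of the edges of the complete
graph with `n` vertices whose queries have at most four non-zero coefficients, or at most five and
then integers of absolute value at most `exp (c * √(log n))`, and which decides with probability at
least `2 / 3`, for all symmetric integer weights, whether there is a triangle of weight zero, makes
at least `n ^ 2 * exp (c * √(log n))` queries in expectation for some weights without such a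
triangle. -/
theorem result : ∃ c : ℝ, 0 < c ∧ ∃ n₀ : ℕ, ∀ n ≥ n₀, ∀ (Ω : Type) [Fintype Ω] (p : Ω → ℝ)
    (t : Ω → Pool.Agent.H692.FL.Tree (Fin n × Fin n)), (∀ ω, 0 ≤ p ω) → ∑ ω, p ω = 1 →
    (∀ ω, (t ω).FiveTerm (Real.exp (c * √(Real.log n)))) →
    (∀ w : Fin n → Fin n → ℤ, (∀ i j, w i j = w j i) → 2 / 3 ≤ ∑ ω, p ω *
      (if ((t ω).run (fun k => (w k.1 k.2 : ℝ)) = true ↔ ZeroTri w) then 1 else 0)) →
    ∃ w : Fin n → Fin n → ℤ, (∀ i j, w i j = w j i) ∧ ¬ ZeroTri w ∧
      (n : ℝ) ^ 2 * Real.exp (c * √(Real.log n)) ≤
        ∑ ω, p ω * ((t ω).cost (fun k => (w k.1 k.2 : ℝ)) : ℝ) := by
  obtain ⟨n₀, h₀⟩ := asym
  refine ⟨1 / 400, by norm_num, n₀, fun n hn Ω _ p t hp hp1 hs hcor => ?_⟩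
  have hc : 1 / 400 * √(Real.log n) = √(Real.log n) / 400 := by ring
  rw [hc] at hs ⊢
  obtain ⟨s, hs1, hs2, hs3⟩ := h₀ n hn
  obtain ⟨E, P, T, _, _, _, A, v, hv, hA⟩ := exact_adversary s n hs1
  obtain ⟨w, hw1, hw2, hw3⟩ := exact_lower A Nat.one_le_two_pow v hv (Real.exp_pos _).le
    (hs3.trans (by push_cast; exact le_rfl)) p hp hp1 t hs hcor
  refine ⟨w, hw1, hw2, le_trans ?_ hw3⟩
  calc (n : ℝ) ^ 2 * Real.exp (√(Real.log n) / 400) ≤ (n : ℝ) ^ 2 * (2 ^ s / 82944) :=
        mul_le_mul_of_nonneg_left hs2 (by positivity)
    _ = (2 ^ s * (n : ℝ) ^ 2 / 9216) / 9 := by ring
    _ ≤ (A.good.card : ℝ) / 9 := div_le_div_of_nonneg_right hA (by norm_num)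

end Pool.Agent.Results.MP_62fbe0_lc.FiveTermTrees
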