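import Mathlib
import Pool.Agent.H692.RB.Tri

/-!
# Exact Triangle with real weights: randomized decision trees with few rounds

The graph is complete tripartite with `n` vertices in each part, the weights are real numbers. How
many tests does a randomized algorithm need to decide whether there is a triangle of weight zero, if
the tests are made in `r` rounds? (The tests of one round are made simultaneously, so they may depend
on the outcomes of the previous rounds, but not on each other.)

The definitions of the following items are in the module `N575.LDT.Model` of the library:

* `Wts n`: the weights of the edges, `wt w s`: the weight of the triangle `s` (a triple of vertices,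
  one from each part);
* `pot x`: the weights given by a potential `x` on the vertices (differences, in cyclic order), for
  which all triangles have the weight zero;

those of the following ones in `Pool/Agent/H692/KS/Model.lean`:

* `Shallow pot f`: the function `f` of the weights (with values in the integers) is locally constant
  near `pot x` for a dense set of potentials `x`;
* `Regular pot f`: the real function `f` of the weights is, for generic (a comeagre set of) potentials
  `x`, differentiable at `pot x`, with a value or a derivative which is not zero;
* `RTree pot β`: decision trees with outputs in `β`; a node asks for the value of a shallow function
  (`free`), or it is a `round`, which asks at the same time for the signs (negative, zero, positive)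
  of any number of regular functions (tests). The trees may be infinite, but all branches are finite;
* `run`, `rounds`, `tests`: the output and the numbers of the rounds and of the tests (of all rounds
  together) on the path of the computation. Nodes `free` are not counted, and there may be any number
  of them;

and in `Pool/Agent/H692/RB/Tri.lean`: `SolvesTri` (the randomized tree finds out whether there is a
triangle of weight zero, if there is at most one) and `TriBound`. A randomized tree is a finite family
`t ρ` of trees with probabilities `p ρ`; `prob p Q` is the probability of `Q`
(`Pool/Agent/H692/RT/Main.lean`).

All analytic functions which are not zero of the second order for all potentials are regular (part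
3), for example all nonzero linear forms, such as the weights of the triangles. Free are for example
the sign of every analytic function which is not zero for all potentials and the integer part of every
analytic function which is not an integer for all potentials: all binary digits of the weights, all
comparisons of weights and of sums of weights which do not vanish for all potentials.

Result 1: a randomized tree with at most `r` rounds which decides with probability `(1 + γ) / 2`
whether there is a triangle of weight zero makes for some weights without such a triangle on average at
least `T` tests with `87 (6 T) ^ r ≥ γ ^ (r + 2) n ^ (2 r + 1)`, even if all weights are small and at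
most one triangle has the weight zero. So `T ≥ c n ^ (2 + 1 / r)`, where `c > 0` depends only on `γ`,
and `n ^ 2 (log n) ^ a` tests suffice only if the number of rounds is at least
`log n / ((a + C) log log n)`. Without a bound for the number of rounds `O (n ^ 2 (log n) ^ 2)` linear
tests suffice (Kane, Lovett and Moran).

Result 2: for two rounds `γ n ^ (8 / 3) / 23` tests are necessary, even if no triangle has a negative
weight.

Proof of result 1. Near a generic potential all shallow functions are constant, and the regular
functions have a constant sign or the sign of their derivative in the direction `u` of the deviation;
so there remain linear tests for `u` (`core_gen`). An assignment `M` gives to each edge `e` of the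
third kind one of the `n` triangles which contain it; there are `n ^ (n ^ 2)` assignments. Let `u M` be
the input with generic weights of the edges of the first two kinds and the weights of the third kind
for which the triangles of `M` have the weight zero, up to very small changes whose sizes decrease very
fast. If the weight of the edge `e` is changed so that its triangle gets the weight zero (or a much
smaller weight) then the outcome of a test `L` changes only if `L` is a combination of the forms of the
triangles of `M`, in which `e` is the first edge of the third kind (`lead_of_diff`). So for the correct
answer such a form has to be among the tests for `u M`, with probability at least `γ`, for each `e`.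

For a deterministic tree let `J` be the set of the `e` for which there is such a form. The forms have a
triangular shape, so they determine `M` inside of `J`, if it is known outside. If `M` is fixed outside
of `J` then the inputs `u M` lie in an affine space of the dimension `d = |J|`, and by the
Sauer-Shelah lemma there are for each round at most `(e T / d) ^ d` possible outcomes (`card_pat`,
`card_joint`). Hence there are at most `(e T / d) ^ (d r) n ^ (n ^ 2 - d)` assignments with this `J`
(`card_sub_gen`). In the average over the trees and the assignments `d ≥ γ n ^ 2`; we choose a tree and
the assignments for which `d ≥ γ n ^ 2 / 4` and the number of the tests is at most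
`2 T d / (γ n ^ 2)`, and sum over `J` (`count_gen`).

Proof of result 2. Let `u = q + η v`. Here `q` is generic with the property that the triangle
`(i, j, k)` has the weight `0` (is tight) if `a i + b k = c j` for random labels `a`, `b`, `c` from
about `x` possible ones, and else a positive weight; it is tight with probability `1 / (2 x)`.
And `v` has positive entries of very different sizes in random order. For a random tight
triangle `f`, let `v'` be `v` without the three edges of `f`, let `z = q + η v'`, and let `y` be
obtained from `z` by adding a very small positive number to the weights of the three edges of `f`: so
`f` is the only triangle which has the weight zero for `z`, and there is none for `y` and `u`. A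
nonzero linear form which is not a multiple of the weight of a triangle has different signs at `u` and
`y` only if it vanishes at `q`, which has the probability `1 / x ^ 2`, and together with the tightness
of `f` the probability `1 / x ^ 3` (for all triangles up to eight), and if the largest entry of `v` in
the support of the form belongs to `f`, which has on average the probability `1 / n ^ 2`. So, if there
are only few tests, then the outcomes of the first round are the same for `u`, `y` and `z`. The second
round can distinguish `y` and `z` only by a test of a multiple of the weight of `f`; but from the
outcomes for `u` nothing is known about `f`, and there are `n ^ 3 / (2 x)` tight triangles.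
-/

set_option autoImplicit false

namespace Pool.Agent.Results.MP_62fbe0_lc.RandomRounds

open Pool.Agent.N575.LDT (Wts wt pot)
open Pool.Agent.H692.KS (RTree Regular RTree.run RTree.rounds RTree.tests)
open Pool.Agent.H692.RT (prob)
open Pool.Agent.H692.RB (SolvesTri TriBound)

/-- Let `t ρ` be decision trees, where `ρ` has the probability `p ρ`, for real weights smaller than
`δ`.
1. Let the trees with at most `r ≥ 1` rounds find out with probability `(1 + γ) / 2` whether there is a
triangle of weight zero, if there is at most one, with at most `T` tests on average if there is none
(`SolvesTri`). Then the inequalities `TriBound γ r n T` hold.
2. Let the trees with at most two rounds reject with probability `(1 + γ) / 2` if the weights of all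
triangles are positive, and accept with probability `(1 + γ) / 2` if exactly one triangle has the
weight zero and all others have positive weights; and let them make at most `T` tests on average if the
weights of all triangles are positive.
3. An analytic function is regular if for some potential its value or its derivative is not zero. -/
theorem result :
    (∀ r n : ℕ, 1 ≤ r → 1 ≤ n → ∀ δ : ℝ, 0 < δ → ∀ (Ω : Type) [Fintype Ω] (p : Ω → ℝ)
      (t : Ω → RTree (pot : (Fin 3 × Fin n → ℝ) → Wts n) Bool) (γ T : ℝ), 0 < γ →
      SolvesTri δ p t γ T r → TriBound γ r n T) ∧
    (∀ n : ℕ, 1 ≤ n → ∀ δ : ℝ, 0 < δ → ∀ (Ω : Type) [Fintype Ω] (p : Ω → ℝ), (∀ ρ, 0 ≤ p ρ) →
      ∑ ρ, p ρ = 1 → ∀ (t : Ω → RTree (pot : (Fin 3 × Fin n → ℝ) → Wts n) Bool) (γ T : ℝ),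
      0 < γ →
      (∀ w : Wts n, (∀ e, |w e| < δ) → (∀ s, 0 < wt w s) →
        (1 + γ) / 2 ≤ prob p (fun ρ => (t ρ).run w = false) ∧ (∀ ρ, (t ρ).rounds w ≤ 2) ∧
          ∑ ρ, p ρ * (t ρ).tests w ≤ T) →
      (∀ w : Wts n, (∀ e, |w e| < δ) → (∃ τ, wt w τ = 0 ∧ ∀ s, s ≠ τ → 0 < wt w s) →
        (1 + γ) / 2 ≤ prob p (fun ρ => (t ρ).run w = true)) →
      γ * (n : ℝ) ^ ((8 : ℝ) / 3) ≤ 23 * T) ∧
    (∀ (n : ℕ) (f : Wts n → ℝ), AnalyticOnNhd ℝ f Set.univ →
      (∃ x, f (pot x) ≠ 0 ∨ fderiv ℝ f (pot x) ≠ 0) →
      Regular (pot : (Fin 3 × Fin n → ℝ) → Wts n) f) := by
  refine ⟨?_, ?_, fun n f hf h => Pool.Agent.N575.PCT.regular_analytic hf h⟩
  · intro r n hr hn δ hδ Ω _ p t γ T hγ h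
    exact Pool.Agent.H692.RB.solves_tri hδ hγ hr hn h
  · intro n hn δ hδ Ω _ p hp0 hp1 t γ T hγ h1 h2
    exact Pool.Agent.H692.RT.exact_tri hn hδ p hp0 hp1 id t hγ h1
      (fun w hw τ h3 h4 => h2 w hw ⟨τ, h3, h4⟩)

end Pool.Agent.Results.MP_62fbe0_lc.RandomRounds
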