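import Pool.Agent.H698.UW.Core
import Pool.Agent.H660.UT.Pref

/-!
# Exact Triangle for randomised circuits that compute with unknown weights

The input is the matrix of the integer weights of the complete graph on `n` vertices; each weight is
known or unknown (`Wts n`). The gates of a circuit have values in an ordered set `D` of states of
knowledge. An input gate reads a whole weight (an arbitrarily long word), and the other gates apply
arbitrary functions `D → D → D` that respect the order: more knowledge about the arguments gives more
knowledge about the value. `D` is any partially ordered set in which the elements below a given one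
form a chain with at most `H + 1` elements (`Height D H`).

* `H = 1`: `D` is the flat order over any set `A`, for instance the set of all integers or of the
  machine words. The gates apply ARBITRARY operations `A → A → A` (addition, multiplication,
  comparison, selection, hashing, pairing, ...) as soon as the arguments are known.
* `H = w`: `D` is the set of the words of `w` bits of which some leading bits are known (`Pref w`).

The circuits have to raise the alarm, with probability at least `1 / 2 + δ`, as soon as the three
weights of a triangle of weight zero are known (whatever is known about the other weights), and they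
have to keep quiet, with probability at least `1 / 2 + δ`, if all weights are known and there is no
triangle of weight zero (`SolvesE`).

(1) For every exponent `t < 3` and all large `n`, every such randomised circuit, even if it is
correct only for the weights `0` and `1`, has an expected number of gates of at least
`(δ - n ^ (-α)) n ^ t / (4 H ^ 2)`.  As `H = O(log n)` for the machine words, this is `n ^ (3 - o(1))`,
the trivial running time, which is conjectured to be optimal for Exact Triangle. (For the weights `0`
and `1` and complete knowledge there are circuits with `O(n ^ 2.38)` gates, by fast matrix
multiplication.)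

(2) The trivial algorithm, which tries all triangles, is such a circuit over the flat order of the
integers (with at most `6 n ^ 3` gates, without errors and for all weights).

Proof of (1). Let the weight `0` stand for the edges of a graph and the weight `1` for the other
pairs, and declare the weights `1` unknown. The value of each gate is then below its value for the
complete graph, so that it lies in a chain with at most `H + 1` elements, and is simulated by at most
`4 H ^ 2` AND and OR gates. The average-case lower bound for triangle detection by circuits of AND and
OR gates in the library (`RandomizedNotGates`) applies, in the form which `helper660` has derived for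
`MP_ad5e8e_lc.UnknownInputWords`.
-/

set_option autoImplicit false

namespace Pool.Agent.Results.MP_62fbe0_lc.UnknownWeights

open Filter Pool.Agent.H698.HF Pool.Agent.H698.UW
open Pool.Agent.H660.UT (Height Pref height_flat height_pref)
open Flat (unknown known)

theorem result :
    -- (1) the lower bound
    (∀ t : ℝ, 0 < t → t < 3 → ∃ α : ℝ, 0 < α ∧ ∀ᶠ n : ℕ in atTop,
      ∀ (D : Type) [PartialOrder D] (H : ℕ), 1 ≤ H → Height D H →
      ∀ (δ : ℝ) (Ω : Type) [Fintype Ω] (p : Ω → ℝ) (l : Ω → List (Wts n → D)),
        (∀ ω, WCirc (l ω)) → SolvesE (bits n) δ p l →
        (δ - (n : ℝ) ^ (-α)) * (n : ℝ) ^ t ≤
          4 * (H : ℝ) ^ 2 * ∑ ω, p ω * ((l ω).length : ℝ)) ∧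
    -- (2) the upper bound
    (∀ n : ℕ, 1 ≤ n → ∃ l : List (Wts n → Flat ℤ), WCirc l ∧ l.length ≤ 6 * n ^ 3 ∧
      SolvesE Set.univ (1 / 2) (fun _ : Unit => 1) (fun _ => l) ∧
      ∃ g ∈ l, ∀ P : Wts n, g P = known 1 ↔ Found P) ∧
    -- (3) the orders
    (∀ A : Type, Height (Flat A) 1 ∧ (Nonempty A → ∀ (f : A → A → A)
      (x x' y y' : Flat A), x ≤ x' → y ≤ y' → Flat.ext f x y ≤ Flat.ext f x' y')) ∧
    ∀ w : ℕ, Height (Pref w) w :=
  ⟨fun _ h1 h2 => lower h1 h2, upper,
    fun A => ⟨height_flat A, fun hA f x x' y y' hx hy => Flat.ext_mono' f x x' y y' hx hy⟩,
    height_pref⟩

end Pool.Agent.Results.MP_62fbe0_lc.UnknownWeights
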